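import Mathlib

open Polynomial

namespace U80.QM

/-- Substitution `q ↦ q^m` in a rational function. -/
noncomputable def sub (m : ℕ) (f : RatFunc ℂ) : RatFunc ℂ :=
  algebraMap ℂ[X] (RatFunc ℂ) (f.num.comp (X ^ m)) /
    algebraMap ℂ[X] (RatFunc ℂ) (f.denom.comp (X ^ m))

/-- `S(P)` is the multiplicative semigroup of positive integers generated by `P`, including `1`. -/
def S (P : Set ℕ) : Submonoid ℕ := Submonoid.closure P

/-- A sequence of rational functions with support exactly `S(P)` satisfying (FE). -/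
structure IsRatSol (P : Set ℕ) (f : ℕ → RatFunc ℂ) : Prop where
  supp : ∀ n, 0 < n → (f n ≠ 0 ↔ n ∈ S P)
  fe : ∀ m n, 0 < m → 0 < n → f (m * n) = f m * sub m (f n)

/-- `Γ(P)`: a sequence of polynomials with support exactly `S(P)` satisfying (FE). -/
structure IsPolSol (P : Set ℕ) (F : ℕ → ℂ[X]) : Prop where
  supp : ∀ n, 0 < n → (F n ≠ 0 ↔ n ∈ S P)
  fe : ∀ m n, 0 < m → 0 < n → F (m * n) = F m * (F n).comp (X ^ m)

/-- `K(Γ(P))`: the termwise quotients of two elements of `Γ(P)` (and `0` off `S(P)`). -/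
def InK (P : Set ℕ) (f : ℕ → RatFunc ℂ) : Prop :=
  ∃ F G : ℕ → ℂ[X], IsPolSol P F ∧ IsPolSol P G ∧
    ∀ n, 0 < n → (n ∈ S P →
        f n = algebraMap ℂ[X] (RatFunc ℂ) (F n) / algebraMap ℂ[X] (RatFunc ℂ) (G n)) ∧
      (n ∉ S P → f n = 0)

lemma comp_ne {m : ℕ} (hm : 0 < m) {f : ℂ[X]} (hf : f ≠ 0) : f.comp (X ^ m) ≠ 0 := by
  rw [← expand_eq_comp_X_pow, Ne, expand_eq_zero hm]
  exact hf

lemma alg_ne {f : ℂ[X]} (hf : f ≠ 0) : algebraMap ℂ[X] (RatFunc ℂ) f ≠ 0 :=
  RatFunc.algebraMap_ne_zero hf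

lemma sub_div {m : ℕ} (hm : 0 < m) (a b : ℂ[X]) (hb : b ≠ 0) :
    sub m (algebraMap ℂ[X] (RatFunc ℂ) a / algebraMap ℂ[X] (RatFunc ℂ) b) =
      algebraMap ℂ[X] (RatFunc ℂ) (a.comp (X ^ m)) /
        algebraMap ℂ[X] (RatFunc ℂ) (b.comp (X ^ m)) := by
  set f : RatFunc ℂ := algebraMap ℂ[X] (RatFunc ℂ) a / algebraMap ℂ[X] (RatFunc ℂ) b with hf
  have hd : f.denom ≠ 0 := f.denom_ne_zero
  have h1 : f.num * b = a * f.denom := by
    have := f.num_div_denom
    rw [hf] at this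
    rw [div_eq_div_iff (alg_ne (by rw [← hf]; exact hd)) (alg_ne hb)] at this
    rw [← map_mul, ← map_mul] at this
    have h := RatFunc.algebraMap_injective ℂ this
    rw [← hf] at h
    exact h
  unfold sub
  rw [div_eq_div_iff (alg_ne (comp_ne hm hd)) (alg_ne (comp_ne hm hb)), ← map_mul, ← map_mul,
    ← mul_comp, ← mul_comp, h1]

/-- membership in `S(P)` for a set of primes. -/
lemma mem_S {P : Set ℕ} (hP : ∀ p ∈ P, p.Prime) {n : ℕ} :
    n ∈ S P ↔ n ≠ 0 ∧ ∀ p, p.Prime → p ∣ n → p ∈ P := by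
  constructor
  · intro h
    induction h using Submonoid.closure_induction with
    | mem x hx =>
      refine ⟨(hP x hx).ne_zero, fun p hp hd => ?_⟩
      rwa [(Nat.prime_dvd_prime_iff_eq hp (hP x hx)).mp hd]
    | one => exact ⟨one_ne_zero, fun p hp hd => (hp.one_lt.ne' (Nat.dvd_one.mp hd)).elim⟩
    | mul x y _ _ hx hy =>
      refine ⟨mul_ne_zero hx.1 hy.1, fun p hp hd => ?_⟩
      rcases (Nat.Prime.dvd_mul hp).mp hd with h | h
      · exact hx.2 p hp h
      · exact hy.2 p hp h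
  · rintro ⟨h0, h⟩
    rw [← Nat.prod_primeFactorsList h0]
    refine Submonoid.list_prod_mem _ fun p hp => Submonoid.subset_closure ?_
    exact h p (Nat.prime_of_mem_primeFactorsList hp) (Nat.dvd_of_mem_primeFactorsList hp)

lemma mul_mem_S {P : Set ℕ} (hP : ∀ p ∈ P, p.Prime) {m n : ℕ} :
    m * n ∈ S P ↔ m ∈ S P ∧ n ∈ S P := by
  refine ⟨fun h => ?_, fun h => mul_mem h.1 h.2⟩
  rw [mem_S hP] at h
  rw [mem_S hP, mem_S hP]
  exact ⟨⟨left_ne_zero_of_mul h.1, fun p hp hd => h.2 p hp (hd.mul_right _)⟩,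
    ⟨right_ne_zero_of_mul h.1, fun p hp hd => h.2 p hp (hd.mul_left _)⟩⟩

/-- multiplicities under `q ↦ q^m`, away from `0`. -/
lemma mult_comp {m : ℕ} (hm : 0 < m) (f : ℂ[X]) {a : ℂ} (ha : a ≠ 0) :
    (f.comp (X ^ m)).rootMultiplicity a = f.rootMultiplicity (a ^ m) := by
  rcases eq_or_ne f 0 with rfl | hf
  · simp
  obtain ⟨g, hg, hg'⟩ := exists_eq_pow_rootMultiplicity_mul_and_not_dvd f hf (a ^ m)
  set k := f.rootMultiplicity (a ^ m) with hk
  have hgr : g.eval (a ^ m) ≠ 0 := fun h => hg' (dvd_iff_isRoot.mpr h)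
  have hg0 : g ≠ 0 := by rintro rfl; simp at hgr
  rw [hg, mul_comp, pow_comp, sub_comp, X_comp, C_comp]
  have hXa : ((X : ℂ[X]) ^ m - C (a ^ m)) ≠ 0 := X_pow_sub_C_ne_zero hm _
  rw [rootMultiplicity_mul (mul_ne_zero (pow_ne_zero _ hXa) (comp_ne hm hg0)),
    ← count_roots ((X ^ m - C (a ^ m)) ^ k), roots_pow, Multiset.count_nsmul, count_roots]
  have h1 : (g.comp (X ^ m)).rootMultiplicity a = 0 := by
    apply rootMultiplicity_eq_zero
    rw [IsRoot.def, eval_comp, eval_pow, eval_X]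
    exact hgr
  have h2 : ((X : ℂ[X]) ^ m - C (a ^ m)).rootMultiplicity a = 1 := by
    apply le_antisymm
    · by_contra hcon
      push_neg at hcon
      have h := (one_lt_rootMultiplicity_iff_isRoot hXa).mp hcon
      have h3 := h.2
      rw [IsRoot.def, derivative_sub, derivative_X_pow, derivative_C, sub_zero, eval_mul,
        eval_pow, eval_X] at h3
      simp only [eval_C, eval_natCast] at h3
      rcases mul_eq_zero.mp h3 with h4 | h4
      · exact hm.ne' (by exact_mod_cast h4)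
      · exact pow_ne_zero _ ha h4
    · have : 0 < ((X : ℂ[X]) ^ m - C (a ^ m)).rootMultiplicity a := by
        rw [rootMultiplicity_pos hXa, IsRoot.def]
        simp
      exact this
  rw [h1, h2]
  simp [hk]

end U80.QM
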