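import Pool.Agent.U80.QM.Key

open Polynomial

namespace U80.QM

open Classical in
/-- The sequence `g(q^n)/g(q)` on `S(P)`, and `0` off `S(P)`. -/
noncomputable def cob (P : Set ℕ) (g : RatFunc ℂ) (n : ℕ) : RatFunc ℂ :=
  if n ∈ S P then sub n g / g else 0

lemma sub_zero' (m : ℕ) : sub m (0 : RatFunc ℂ) = 0 := by
  simp [sub]

lemma sub_ne {m : ℕ} (hm : 0 < m) {g : RatFunc ℂ} (hg : g ≠ 0) : sub m g ≠ 0 := by
  unfold sub
  exact div_ne_zero (alg_ne (comp_ne hm (RatFunc.num_ne_zero hg)))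
    (alg_ne (comp_ne hm g.denom_ne_zero))

lemma quot (g : RatFunc ℂ) (n : ℕ) :
    sub n g / g = algebraMap ℂ[X] (RatFunc ℂ) (g.num.comp (X ^ n) * g.denom) /
      algebraMap ℂ[X] (RatFunc ℂ) (g.denom.comp (X ^ n) * g.num) := by
  have h : sub n g / g = sub n g /
      (algebraMap ℂ[X] (RatFunc ℂ) g.num / algebraMap ℂ[X] (RatFunc ℂ) g.denom) := by
    rw [RatFunc.num_div_denom]
  rw [h]
  unfold sub
  rw [map_mul, map_mul, div_div_div_eq]

lemma cob_sol {P : Set ℕ} (hP : ∀ p ∈ P, p.Prime) {g : RatFunc ℂ} (hg : g ≠ 0) :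
    IsRatSol P (cob P g) := by
  refine ⟨fun n hn => ?_, fun m n hm hn => ?_⟩
  · unfold cob
    split_ifs with h
    · exact ⟨fun _ => h, fun _ => div_ne_zero (sub_ne hn hg) hg⟩
    · exact ⟨fun h' => absurd rfl h', fun h' => absurd h' h⟩
  · unfold cob
    by_cases h : m * n ∈ S P
    · obtain ⟨h1, h2⟩ := (mul_mem_S hP).mp h
      rw [if_pos h, if_pos h1, if_pos h2, quot g (m * n), quot g n, quot g m,
        sub_div hm _ _ (mul_ne_zero (comp_ne hn g.denom_ne_zero) (RatFunc.num_ne_zero hg))]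
      have ha := RatFunc.num_ne_zero hg
      have hb := g.denom_ne_zero
      have e1 : ∀ f : ℂ[X], (f.comp (X ^ n)).comp (X ^ m) = f.comp (X ^ (m * n)) := by
        intro f
        rw [comp_assoc, pow_comp, X_comp, ← pow_mul]
      simp only [mul_comp, e1, map_mul]
      have i1 := alg_ne ha
      have i2 := alg_ne hb
      have i3 := alg_ne (comp_ne hm ha)
      have i4 := alg_ne (comp_ne hm hb)
      have i5 := alg_ne (comp_ne (Nat.mul_pos hm hn) ha)
      have i6 := alg_ne (comp_ne (Nat.mul_pos hm hn) hb)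
      field_simp
    · rw [if_neg h]
      by_cases h1 : m ∈ S P
      · have h2 : n ∉ S P := fun h2 => h ((mul_mem_S hP).mpr ⟨h1, h2⟩)
        rw [if_neg h2, sub_zero', mul_zero]
      · rw [if_neg h1, zero_mul]

/-- If `g(q^n)/g(q)` lies in `K(Γ(P))`, then all nonzero zeros and poles of `g` lie on the unit
circle. -/
lemma cob_K {P : Set ℕ} (hP : ∀ p ∈ P, p.Prime) (h2 : ¬ P.Subsingleton) {g : RatFunc ℂ}
    (hg : g ≠ 0) (hK : InK P (cob P g)) {c : ℂ} (hc : c ≠ 0)
    (hroot : g.num.IsRoot c ∨ g.denom.IsRoot c) : ‖c‖ = 1 := by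
  by_contra hc1
  rw [Set.not_subsingleton_iff] at h2
  obtain ⟨p, hp, r, hr, hpr⟩ := h2
  have hpp := hP p hp
  obtain ⟨F, G, hF, hG, hFG⟩ := hK
  have hpS : p ∈ S P := Submonoid.subset_closure hp
  have hFp : F p ≠ 0 := (hF.supp p hpp.pos).mpr hpS
  have hGp : G p ≠ 0 := (hG.supp p hpp.pos).mpr hpS
  have ha := RatFunc.num_ne_zero hg
  have hb := g.denom_ne_zero
  set a := g.num with hadef
  set b := g.denom with hbdef
  have h3 := (hFG p hpp.pos).1 hpS
  rw [cob, if_pos hpS, quot g p, div_eq_div_iff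
    (alg_ne (mul_ne_zero (comp_ne hpp.pos hb) ha)) (alg_ne hGp), ← map_mul, ← map_mul] at h3
  have h4 := RatFunc.algebraMap_injective ℂ h3
  have step : ∀ α : ℂ, α ≠ 0 → ‖α‖ ≠ 1 →
      (a.rootMultiplicity (α ^ p) : ℤ) - b.rootMultiplicity (α ^ p) =
        a.rootMultiplicity α - b.rootMultiplicity α := by
    intro α hα hα1
    have h5 := congrArg (rootMultiplicity α) h4
    rw [rootMultiplicity_mul (mul_ne_zero (mul_ne_zero (comp_ne hpp.pos ha) hb) hGp),
      rootMultiplicity_mul (mul_ne_zero (comp_ne hpp.pos ha) hb),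
      rootMultiplicity_mul (mul_ne_zero hFp (mul_ne_zero (comp_ne hpp.pos hb) ha)),
      rootMultiplicity_mul (mul_ne_zero (comp_ne hpp.pos hb) ha),
      mult_comp hpp.pos a hα, mult_comp hpp.pos b hα, no_zero hP hp hr hpr hF hα hα1,
      no_zero hP hp hr hpr hG hα hα1] at h5
    omega
  have hit : ∀ k : ℕ, (a.rootMultiplicity (c ^ p ^ k) : ℤ) - b.rootMultiplicity (c ^ p ^ k) =
        a.rootMultiplicity c - b.rootMultiplicity c := by
    intro k
    induction k with
    | zero => simp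
    | succ k ih =>
      rw [← ih, pow_succ p k, pow_mul]
      refine step _ (pow_ne_zero _ hc) ?_
      rw [norm_pow]
      intro h
      exact hc1 ((pow_eq_one_iff_of_nonneg (norm_nonneg c) (pow_ne_zero _ hpp.ne_zero)).mp h)
  have hinj : Function.Injective fun k : ℕ => c ^ p ^ k := by
    intro i j hij
    have h6 := congrArg norm hij
    simp only [norm_pow] at h6
    have hn0 : 0 < ‖c‖ := norm_pos_iff.mpr hc
    have h7 := (pow_right_injective₀ hn0 hc1) h6
    exact Nat.pow_right_injective hpp.two_le h7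
  obtain ⟨k, hk⟩ : ∃ k : ℕ, c ^ p ^ k ∉ (a * b).roots.toFinset :=
    (Set.infinite_range_of_injective hinj).exists_notMem_finset _ |>.elim
      fun x hx => by
        obtain ⟨⟨k, rfl⟩, hx2⟩ := hx
        exact ⟨k, hx2⟩
  rw [Multiset.mem_toFinset, mem_roots (mul_ne_zero ha hb), IsRoot.def, eval_mul] at hk
  have hka : a.rootMultiplicity (c ^ p ^ k) = 0 :=
    rootMultiplicity_eq_zero fun h => hk (by rw [h.eq_zero, zero_mul])
  have hkb : b.rootMultiplicity (c ^ p ^ k) = 0 :=
    rootMultiplicity_eq_zero fun h => hk (by rw [h.eq_zero, mul_zero])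
  have h8 := hit k
  rw [hka, hkb] at h8
  obtain ⟨u, v, huv⟩ := g.isCoprime_num_denom
  have h9 : ¬ (a.IsRoot c ∧ b.IsRoot c) := by
    rintro ⟨h10, h11⟩
    have := congrArg (eval c) huv
    rw [eval_add, eval_mul, eval_mul, h10.eq_zero, h11.eq_zero] at this
    simp at this
  rcases hroot with h | h
  · have h12 : 0 < a.rootMultiplicity c := (rootMultiplicity_pos ha).mpr h
    have h13 : 0 < b.rootMultiplicity c := by omega
    exact h9 ⟨h, (rootMultiplicity_pos hb).mp h13⟩
  · have h12 : 0 < b.rootMultiplicity c := (rootMultiplicity_pos hb).mpr h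
    have h13 : 0 < a.rootMultiplicity c := by omega
    exact h9 ⟨(rootMultiplicity_pos ha).mp h13, h⟩

end U80.QM
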