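import Pool.Agent.U80.QM.Basic

open Polynomial

namespace U80.QM

/-- multiplicities along the curve `u ↦ exp (w e^u)`, on which `q ↦ q^m` is `u ↦ u + log m`. -/
noncomputable def e (w : ℂ) (f : ℂ[X]) (u : ℝ) : ℕ :=
  f.rootMultiplicity (Complex.exp (w * (Real.exp u : ℝ)))

lemma curve_inj {w : ℂ} (hw : w.re ≠ 0) :
    Function.Injective fun u : ℝ => Complex.exp (w * (Real.exp u : ℝ)) := by
  intro u v h
  have h1 := congrArg norm h
  simp only [Complex.norm_exp, Complex.re_mul_ofReal] at h1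
  exact Real.exp_injective (mul_left_cancel₀ hw (Real.exp_injective h1))

lemma e_fin {w : ℂ} (hw : w.re ≠ 0) (f : ℂ[X]) : (Function.support (e w f)).Finite := by
  rcases eq_or_ne f 0 with rfl | hf
  · have : Function.support (e w 0) = ∅ := by
      ext u; simp [e]
    rw [this]; exact Set.finite_empty
  · refine Set.Finite.subset ((f.roots.toFinset.finite_toSet).preimage
      (curve_inj hw).injOn) fun u hu => ?_
    simp only [Set.mem_preimage, Finset.mem_coe, Multiset.mem_toFinset]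
    rw [← Multiset.count_pos, count_roots]
    exact Nat.pos_of_ne_zero hu

lemma e_comp (w : ℂ) (f : ℂ[X]) {m : ℕ} (hm : 0 < m) (u : ℝ) :
    e w (f.comp (X ^ m)) u = e w f (u + Real.log m) := by
  unfold e
  rw [mult_comp hm f (Complex.exp_ne_zero _), ← Complex.exp_nat_mul, Real.exp_add,
    Real.exp_log (by exact_mod_cast hm)]
  congr 2
  push_cast
  ring

lemma e_mul (w : ℂ) {f g : ℂ[X]} (h : f * g ≠ 0) (u : ℝ) :
    e w (f * g) u = e w f u + e w g u := rootMultiplicity_mul h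

noncomputable def N (w : ℂ) (f : ℂ[X]) : ℕ := ∑ᶠ u, e w f u

noncomputable def L (w : ℂ) (f : ℂ[X]) : ℝ := ∑ᶠ u : ℝ, u * (e w f u : ℝ)

lemma N_cast {w : ℂ} (hw : w.re ≠ 0) (f : ℂ[X]) : (N w f : ℝ) = ∑ᶠ u : ℝ, (e w f u : ℝ) := by
  have := AddMonoidHom.map_finsum (Nat.castAddMonoidHom ℝ) (e_fin hw f)
  simpa [N] using this

lemma supp1 {w : ℂ} (hw : w.re ≠ 0) (f : ℂ[X]) (g : ℝ → ℝ) :
    (Function.support fun u => g u * (e w f u : ℝ)).Finite := by
  refine (e_fin hw f).subset fun u hu => ?_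
  intro h0
  apply hu
  simp [h0]

lemma L_comp {w : ℂ} (hw : w.re ≠ 0) (f : ℂ[X]) {m : ℕ} (hm : 0 < m) :
    L w (f.comp (X ^ m)) = L w f - Real.log m * N w f := by
  have h1 : L w (f.comp (X ^ m)) =
      ∑ᶠ u : ℝ, (fun v : ℝ => (v - Real.log m) * (e w f v : ℝ)) (Equiv.addRight (Real.log m) u) := by
    unfold L
    apply finsum_congr
    intro u
    rw [e_comp w f hm]
    simp
  have h0 := finsum_comp_equiv (Equiv.addRight (Real.log m))
    (f := fun v : ℝ => (v - Real.log m) * (e w f v : ℝ))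
  rw [h1, h0, N_cast hw, L]
  have h2 : Real.log m * ∑ᶠ u : ℝ, (e w f u : ℝ) = ∑ᶠ u : ℝ, Real.log m * (e w f u : ℝ) :=
    mul_finsum (fun u => (e w f u : ℝ)) (Real.log m)
  rw [h2, ← finsum_sub_distrib (supp1 hw f _) (supp1 hw f _)]
  apply finsum_congr
  intro u
  ring

lemma L_mul {w : ℂ} (hw : w.re ≠ 0) {f g : ℂ[X]} (h : f * g ≠ 0) :
    L w (f * g) = L w f + L w g := by
  unfold L
  rw [← finsum_add_distrib (supp1 hw f _) (supp1 hw g _)]
  apply finsum_congr
  intro u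
  rw [e_mul w h]
  push_cast
  ring

/-- A polynomial solution whose support has two primes has no zero off the unit circle
except possibly `0`. -/
lemma no_zero {P : Set ℕ} (hP : ∀ p ∈ P, p.Prime) {p r : ℕ} (hp : p ∈ P) (hr : r ∈ P)
    (hpr : p ≠ r) {F : ℕ → ℂ[X]} (hF : IsPolSol P F) {c : ℂ} (hc : c ≠ 0) (hc1 : ‖c‖ ≠ 1) :
    (F p).rootMultiplicity c = 0 := by
  have hpp := hP p hp
  have hrp := hP r hr
  set w := Complex.log c with hwdef
  have hexp : Complex.exp w = c := Complex.exp_log hc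
  have hw : w.re ≠ 0 := by
    intro h
    apply hc1
    rw [← hexp, Complex.norm_exp, h, Real.exp_zero]
  have hFp : F p ≠ 0 := (hF.supp p hpp.pos).mpr (Submonoid.subset_closure hp)
  have hFr : F r ≠ 0 := (hF.supp r hrp.pos).mpr (Submonoid.subset_closure hr)
  have h1 : F p * (F r).comp (X ^ p) = F r * (F p).comp (X ^ r) := by
    rw [← hF.fe p r hpp.pos hrp.pos, ← hF.fe r p hrp.pos hpp.pos, mul_comm p r]
  have h2 := congrArg (L w) h1
  rw [L_mul hw (mul_ne_zero hFp (comp_ne hpp.pos hFr)),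
    L_mul hw (mul_ne_zero hFr (comp_ne hrp.pos hFp)), L_comp hw _ hpp.pos,
    L_comp hw _ hrp.pos] at h2
  have h3 : Real.log ((p : ℝ) ^ N w (F r)) = Real.log ((r : ℝ) ^ N w (F p)) := by
    rw [Real.log_pow, Real.log_pow]
    linarith
  have h4 : (p : ℝ) ^ N w (F r) = (r : ℝ) ^ N w (F p) :=
    Real.log_injOn_pos (Set.mem_Ioi.mpr (pow_pos (by exact_mod_cast hpp.pos) _))
      (Set.mem_Ioi.mpr (pow_pos (by exact_mod_cast hrp.pos) _)) h3
  have h5 : p ^ N w (F r) = r ^ N w (F p) := by exact_mod_cast h4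
  have h6 : N w (F p) = 0 := by
    by_contra h0
    have : r ∣ p ^ N w (F r) := h5 ▸ dvd_pow_self r h0
    exact hpr ((Nat.prime_dvd_prime_iff_eq hrp hpp).mp (hrp.dvd_of_dvd_pow this)).symm
  have h7 := single_le_finsum (0 : ℝ) (e_fin hw (F p)) (fun _ => Nat.zero_le _)
  have h8 : e w (F p) 0 = 0 := by
    have : e w (F p) 0 ≤ N w (F p) := h7
    omega
  simpa [e, hexp] using h8

end U80.QM
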