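import Pool.Agent.U80.QM.Cob

open Polynomial

namespace U80.QM

lemma sub_one (f : RatFunc ℂ) : sub 1 f = f := by
  unfold sub
  rw [pow_one, comp_X, comp_X, RatFunc.num_div_denom]

lemma at_one {P : Set ℕ} {f : ℕ → RatFunc ℂ} (hf : IsRatSol P f) : f 1 = 1 := by
  have h1 : f 1 ≠ 0 := (hf.supp 1 one_pos).mpr (one_mem _)
  have h2 := hf.fe 1 1 one_pos one_pos
  rw [mul_one, sub_one] at h2
  exact (mul_left_cancel₀ h1 (by rw [mul_one]; exact h2)).symm

open Classical in
/-- the polynomial solution on the powers of `p` generated by `f_p = a`. -/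
noncomputable def A (p : ℕ) (a : ℂ[X]) (n : ℕ) : ℂ[X] :=
  if n ∈ S {p} then ∏ i ∈ Finset.range (Nat.log p n), a.comp (X ^ p ^ i) else 0

lemma mem_S_single {p n : ℕ} : n ∈ S {p} ↔ ∃ k, p ^ k = n := by
  unfold S
  rw [← Submonoid.powers_eq_closure, Submonoid.mem_powers_iff]

lemma A_pow {p : ℕ} (hp : p.Prime) (a : ℂ[X]) (k : ℕ) :
    A p a (p ^ k) = ∏ i ∈ Finset.range k, a.comp (X ^ p ^ i) := by
  unfold A
  rw [if_pos (mem_S_single.mpr ⟨k, rfl⟩), Nat.log_pow hp.one_lt]

lemma A_sol {p : ℕ} (hp : p.Prime) {a : ℂ[X]} (ha : a ≠ 0) : IsPolSol {p} (A p a) := by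
  have hP : ∀ q ∈ ({p} : Set ℕ), q.Prime := by
    rintro q rfl
    exact hp
  refine ⟨fun n hn => ?_, fun m n hm hn => ?_⟩
  · constructor
    · intro h
      by_contra h'
      exact h (by rw [A, if_neg h'])
    · intro h
      obtain ⟨k, rfl⟩ := mem_S_single.mp h
      rw [A_pow hp]
      exact Finset.prod_ne_zero_iff.mpr fun i _ => comp_ne (pow_pos hp.pos i) ha
  · by_cases h : m * n ∈ S {p}
    · obtain ⟨h1, h2⟩ := (mul_mem_S hP).mp h
      obtain ⟨k, rfl⟩ := mem_S_single.mp h1
      obtain ⟨l, rfl⟩ := mem_S_single.mp h2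
      rw [← pow_add, A_pow hp, A_pow hp, A_pow hp, Finset.prod_range_add, prod_comp]
      congr 1
      apply Finset.prod_congr rfl
      intro i _
      rw [comp_assoc, pow_comp, X_comp, ← pow_mul, ← pow_add]
    · have h0 : A p a (m * n) = 0 := by rw [A, if_neg h]
      rw [h0]
      by_cases h1 : m ∈ S {p}
      · have h2 : n ∉ S {p} := fun h2 => h ((mul_mem_S hP).mpr ⟨h1, h2⟩)
        have h3 : A p a n = 0 := by rw [A, if_neg h2]
        rw [h3, zero_comp, mul_zero]
      · have h3 : A p a m = 0 := by rw [A, if_neg h1]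
        rw [h3, zero_mul]

/-- With at most one prime, every rational solution is a quotient of polynomial solutions. -/
lemma inK_of_subsingleton {P : Set ℕ} (hP : ∀ p ∈ P, p.Prime) (h : P.Subsingleton)
    {f : ℕ → RatFunc ℂ} (hf : IsRatSol P f) : InK P f := by
  rcases h.eq_empty_or_singleton with rfl | ⟨p, rfl⟩
  · have hS : ∀ n, n ∈ S ∅ ↔ n = 1 := by
      intro n
      unfold S
      rw [Submonoid.closure_empty, Submonoid.mem_bot]
    have hone : IsPolSol ∅ (fun n => if n = 1 then 1 else 0) := by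
      refine ⟨fun n _ => ?_, fun m n _ _ => ?_⟩
      · rw [hS]
        split_ifs with h1 <;> simp [h1]
      · by_cases h1 : m = 1 <;> by_cases h2 : n = 1 <;> simp [h1, h2]
    refine ⟨_, _, hone, hone, fun n hn => ⟨fun h1 => ?_, fun h1 => ?_⟩⟩
    · rw [hS] at h1
      subst h1
      simp [at_one hf]
    · by_contra h2
      exact h1 ((hf.supp n hn).mp h2)
  · have hp : p.Prime := hP p rfl
    have hfp : f p ≠ 0 := (hf.supp p hp.pos).mpr (Submonoid.subset_closure rfl)
    refine ⟨A p (f p).num, A p (f p).denom, A_sol hp (RatFunc.num_ne_zero hfp),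
      A_sol hp (f p).denom_ne_zero, fun n hn => ⟨fun h1 => ?_, fun h1 => ?_⟩⟩
    · obtain ⟨k, rfl⟩ := mem_S_single.mp h1
      clear h1 hn
      induction k with
      | zero => rw [A_pow hp, A_pow hp]; simp [at_one hf]
      | succ k ih =>
        rw [pow_succ, hf.fe _ _ (pow_pos hp.pos k) hp.pos, ih, ← pow_succ, A_pow hp, A_pow hp,
          A_pow hp, A_pow hp, Finset.prod_range_succ, Finset.prod_range_succ, map_mul, map_mul,
          mul_div_mul_comm]
        rfl
    · by_contra h2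
      exact h1 ((hf.supp n hn).mp h2)

end U80.QM
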